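import Pool.Agent.Helper66.FracD

set_option autoImplicit false
open MeasureTheory Set Filter Topology
open scoped ENNReal NNReal

namespace Pool.Agent.Results.MP_7e0f1f_an.FracSepBump

noncomputable section

/-- The half-open cube with corner `a` and side length `ℓ`. -/
def cube {n : ℕ} (a : Fin n → ℝ) (ℓ : ℝ) : Set (EuclideanSpace ℝ (Fin n)) :=
  {x | ∀ i, a i ≤ x i ∧ x i < a i + ℓ}

/-- Young functions: convex, continuous, strictly increasing on `[0,∞)`, vanishing at `0`,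
with `Φ(t)/t → ∞`. -/
def IsYoung (Φ : ℝ → ℝ) : Prop :=
  Φ 0 = 0 ∧ ContinuousOn Φ (Ici 0) ∧ StrictMonoOn Φ (Ici 0) ∧ ConvexOn ℝ (Ici 0) Φ ∧
    Tendsto (fun t : ℝ => Φ t / t) atTop atTop

/-- The associate function `sup_{s>0} (s t - Φ(s))`, with values in `[0,∞]`. -/
def assoc (Φ : ℝ → ℝ) (t : ℝ) : ℝ≥0∞ := ⨆ (s : ℝ) (_ : 0 < s), ENNReal.ofReal (s * t - Φ s)

/-- The condition `B_r`: `∫_1^∞ Ψ(t) t^{-r} dt/t < ∞`. -/
def InB (Ψ : ℝ → ℝ≥0∞) (r : ℝ) : Prop :=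
  ∫⁻ t in Ioi (1 : ℝ), Ψ t * ENNReal.ofReal (t ^ (-r) / t) < ⊤

/-- A weight: measurable, non-negative, locally integrable. -/
def IsWeight {n : ℕ} (w : EuclideanSpace ℝ (Fin n) → ℝ) : Prop :=
  Measurable w ∧ (∀ x, 0 ≤ w x) ∧ LocallyIntegrable w

/-- The localized Luxemburg norm `inf {λ > 0 : ⨍_Q Φ(g/λ) ≤ 1}` of a non-negative function. -/
def lux {n : ℕ} (Φ : ℝ → ℝ) (g : EuclideanSpace ℝ (Fin n) → ℝ)
    (Q : Set (EuclideanSpace ℝ (Fin n))) : ℝ≥0∞ :=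
  ⨅ (lam : ℝ) (_ : 0 < lam) (_ : (∫⁻ x in Q, ENNReal.ofReal (Φ (g x / lam))) / volume Q ≤ 1),
    ENNReal.ofReal lam

/-- `‖g‖_{r,Q} = (⨍_Q g^r)^{1/r}` of a non-negative function. -/
def avg {n : ℕ} (r : ℝ) (g : EuclideanSpace ℝ (Fin n) → ℝ)
    (Q : Set (EuclideanSpace ℝ (Fin n))) : ℝ≥0∞ :=
  ((∫⁻ x in Q, ENNReal.ofReal (g x ^ r)) / volume Q) ^ (1 / r)

/-- `[u,σ]_{A^α_{p,p,B}} = sup_Q |Q|^{α/n} ‖u^{1/p}‖_{p,Q} ‖σ^{1/p'}‖_{B,Q}`. -/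
def bumpB {n : ℕ} (α p : ℝ) (B : ℝ → ℝ) (u σ : EuclideanSpace ℝ (Fin n) → ℝ) : ℝ≥0∞ :=
  ⨆ (a : Fin n → ℝ) (ℓ : ℝ) (_ : 0 < ℓ), volume (cube a ℓ) ^ (α / n) *
    avg p (fun x => u x ^ (1 / p)) (cube a ℓ) *
    lux B (fun x => σ x ^ (1 / (p / (p - 1)))) (cube a ℓ)

/-- `[u,σ]^*_{A^α_{p,p,A}} = sup_Q |Q|^{α/n} ‖u^{1/p}‖_{A,Q} ‖σ^{1/p'}‖_{p',Q}`. -/
def bumpA {n : ℕ} (α p : ℝ) (A : ℝ → ℝ) (u σ : EuclideanSpace ℝ (Fin n) → ℝ) : ℝ≥0∞ :=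
  ⨆ (a : Fin n → ℝ) (ℓ : ℝ) (_ : 0 < ℓ), volume (cube a ℓ) ^ (α / n) *
    lux A (fun x => u x ^ (1 / p)) (cube a ℓ) *
    avg (p / (p - 1)) (fun x => σ x ^ (1 / (p / (p - 1)))) (cube a ℓ)

/-- The fractional integral `I_α(fσ)(x) = ∫ f(y) σ(y) |x-y|^{α-n} dy`, for `f, σ ≥ 0`. -/
def fracInt {n : ℕ} (α : ℝ) (f σ : EuclideanSpace ℝ (Fin n) → ℝ)
    (x : EuclideanSpace ℝ (Fin n)) : ℝ≥0∞ :=
  ∫⁻ y, ENNReal.ofReal (f y * σ y * ‖x - y‖ ^ (α - n))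

/-- Strong type: `‖I_α(fσ)‖_{L^p(u)}^p ≤ C ‖f‖_{L^p(σ)}^p` for all measurable `f ≥ 0`. -/
def StrongType {n : ℕ} (α p : ℝ) (u σ : EuclideanSpace ℝ (Fin n) → ℝ) : Prop :=
  ∃ C : ℝ≥0, ∀ f : EuclideanSpace ℝ (Fin n) → ℝ, Measurable f → (∀ y, 0 ≤ f y) →
    ∫⁻ x, fracInt α f σ x ^ p * ENNReal.ofReal (u x) ≤
      C * ∫⁻ y, ENNReal.ofReal (f y ^ p * σ y)

/-- Weak type: `t^p u({I_α(fσ) > t}) ≤ C ‖f‖_{L^p(σ)}^p` for all measurable `f ≥ 0` and `t > 0`. -/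
def WeakType {n : ℕ} (α p : ℝ) (u σ : EuclideanSpace ℝ (Fin n) → ℝ) : Prop :=
  ∃ C : ℝ≥0, ∀ f : EuclideanSpace ℝ (Fin n) → ℝ, Measurable f → (∀ y, 0 ≤ f y) →
    ∀ t : ℝ, 0 < t →
      ENNReal.ofReal t ^ p * (∫⁻ x in {x | ENNReal.ofReal t < fracInt α f σ x},
        ENNReal.ofReal (u x)) ≤ C * ∫⁻ y, ENNReal.ofReal (f y ^ p * σ y)

open Pool.Agent.Helper66.Frac

theorem Y_young : IsYoung Y := by
  refine ⟨Y_zero, Y_cont, ?_, Y_convex, Y_tendsto⟩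
  intro x hx y hy hxy
  have hx' : (0:ℝ) ≤ x := hx
  unfold Y
  apply pow_lt_pow_left₀ _ (base_nonneg hx') (by norm_num)
  apply mul_lt_mul'' (by linarith) (Real.log_lt_log (by linarith) (by linarith)) (by linarith)
    (Real.log_nonneg (by linarith))

theorem assoc_le (t : ℝ) : assoc Y t ≤ ENNReal.ofReal (Ybar t) := by
  unfold assoc
  apply iSup₂_le
  intro s hs
  apply ENNReal.ofReal_le_ofReal
  unfold Ybar
  refine le_ciSup_of_le (conj_bdd t) ⟨s, hs.le⟩ ?_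
  simp only
  linarith [mul_comm s t]

theorem assoc_inB : InB (assoc Y) 2 := by
  unfold InB
  have h := Ybar_int
  have h2 := h.2
  refine lt_of_le_of_lt ?_ h2
  apply setLIntegral_mono' measurableSet_Ioi
  intro t ht
  have ht1 : (1:ℝ) < t := ht
  have ht0 : 0 < t := by linarith
  have hY := Ybar_nonneg t
  rw [Real.enorm_of_nonneg (by positivity)]
  calc assoc Y t * ENNReal.ofReal (t ^ (-2 : ℝ) / t)
      ≤ ENNReal.ofReal (Ybar t) * ENNReal.ofReal (t ^ (-2 : ℝ) / t) := by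
        gcongr
        exact assoc_le t
    _ = ENNReal.ofReal (Ybar t / t ^ (2:ℝ) / t) := by
        rw [← ENNReal.ofReal_mul hY, Real.rpow_neg ht0.le]
        congr 1
        ring

theorem cube_eq (a : Fin 1 → ℝ) (ℓ : ℝ) : cube a ℓ = e1 ⁻¹' (Ico (a 0) (a 0 + ℓ)) := by
  ext x
  simp only [cube, mem_preimage, mem_Ico, e1_apply]
  constructor
  · intro h; exact h 0
  · intro h i
    have : i = 0 := Subsingleton.elim _ _
    subst this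
    exact h

theorem vol_cube (a : Fin 1 → ℝ) (ℓ : ℝ) : volume (cube a ℓ) = ENNReal.ofReal ℓ := by
  rw [cube_eq, vol_pre, Real.volume_Ico]
  simp

theorem avg_w (a : Fin 1 → ℝ) (ℓ : ℝ) : avg 2 (fun x => w x ^ (1 / 2 : ℝ)) (cube a ℓ) =
    (volume (EE ∩ Ico (a 0) (a 0 + ℓ)) / ENNReal.ofReal ℓ) ^ (1 / 2 : ℝ) := by
  unfold avg
  rw [vol_cube, cube_eq]
  congr 2
  have hE : MeasurableSet (e1 ⁻¹' EE) := e1.measurable EE_meas
  have h2 : (fun x => ENNReal.ofReal ((w x ^ (1/2 : ℝ)) ^ (2:ℝ))) =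
      (e1 ⁻¹' EE).indicator (fun _ => 1) := by
    funext x
    by_cases hx : e1 x ∈ EE
    · rw [indicator_of_mem (show x ∈ e1 ⁻¹' EE from hx), w_mem hx, Real.one_rpow, Real.one_rpow,
        ENNReal.ofReal_one]
    · rw [indicator_of_notMem (show x ∉ e1 ⁻¹' EE from hx), w_not hx,
        Real.zero_rpow (by norm_num), Real.zero_rpow (by norm_num), ENNReal.ofReal_zero]
  rw [h2, lintegral_indicator hE, Measure.restrict_restrict hE, setLIntegral_const,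
    ← preimage_inter, vol_pre, one_mul]

/-- the key product bound -/
theorem prod_le (a : Fin 1 → ℝ) (ℓ : ℝ) (hl : 0 < ℓ) :
    volume (cube a ℓ) ^ (1 / 2 : ℝ) * avg 2 (fun x => w x ^ (1 / 2 : ℝ)) (cube a ℓ) *
      lux Y (fun x => w x ^ (1 / 2 : ℝ)) (cube a ℓ) ≤ 9 := by
  rw [avg_w, vol_cube]
  have hlpos : ENNReal.ofReal ℓ ≠ 0 := by simpa using hl
  rw [← ENNReal.mul_rpow_of_nonneg _ _ (by norm_num),
    ENNReal.mul_div_cancel hlpos ENNReal.ofReal_ne_top]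
  set v := volume (EE ∩ Ico (a 0) (a 0 + ℓ)) with hv
  have hvt : v ≠ ⊤ := by
    apply ne_of_lt
    refine (measure_mono inter_subset_right).trans_lt ?_
    rw [Real.volume_Ico]
    exact ENNReal.ofReal_lt_top
  by_cases hv0 : v = 0
  · rw [hv0, ENNReal.zero_rpow_of_pos (by norm_num), zero_mul]
    exact bot_le
  have hh : 0 < v.toReal := ENNReal.toReal_pos hv0 hvt
  have hs : 0 < Real.sqrt v.toReal := Real.sqrt_pos.mpr hh
  have hlux : lux Y (fun x => w x ^ (1 / 2 : ℝ)) (cube a ℓ) ≤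
      ENNReal.ofReal (9 / Real.sqrt v.toReal) := by
    unfold lux
    refine iInf₂_le_of_le (9 / Real.sqrt v.toReal) (by positivity) ?_
    refine iInf_le_of_le ?_ le_rfl
    have hcv : volume (cube a ℓ) ≠ 0 := by rw [vol_cube]; exact hlpos
    have hct : volume (cube a ℓ) ≠ ⊤ := by rw [vol_cube]; exact ENNReal.ofReal_ne_top
    rw [ENNReal.div_le_iff hcv hct, one_mul]
    apply bump a ℓ hl (9 / Real.sqrt v.toReal) (by positivity) (1 / 2) rfl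
    rw [Q_eq, int_w, pow_one, ← Real.mul_rpow hl.le (by positivity), mul_div_cancel₀ _ hl.ne',
      ← Real.sqrt_eq_rpow, ← hv]
    rw [mul_div_cancel₀ _ hs.ne']
    norm_num
  calc v ^ (1 / 2 : ℝ) * lux Y (fun x => w x ^ (1 / 2 : ℝ)) (cube a ℓ)
      ≤ v ^ (1 / 2 : ℝ) * ENNReal.ofReal (9 / Real.sqrt v.toReal) := by gcongr
    _ = 9 := by
        have h1 : v ^ (1 / 2 : ℝ) = ENNReal.ofReal (Real.sqrt v.toReal) := by
          rw [Real.sqrt_eq_rpow, ← ENNReal.ofReal_rpow_of_nonneg hh.le (by norm_num),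
            ENNReal.ofReal_toReal hvt]
        rw [h1, ← ENNReal.ofReal_mul hs.le, mul_div_cancel₀ _ hs.ne']
        norm_num

theorem bumps : bumpB (n := 1) (1 / 2) 2 Y w w ≤ 9 ∧ bumpA (n := 1) (1 / 2) 2 Y w w ≤ 9 := by
  have h1 : (1 / ((2:ℝ) / (2 - 1)) : ℝ) = 1 / 2 := by norm_num
  have h2 : ((2:ℝ) / (2 - 1)) = 2 := by norm_num
  have h3 : ((1 / 2 : ℝ) / ((1 : ℕ) : ℝ)) = 1 / 2 := by norm_num
  constructor
  · unfold bumpB
    rw [h1, h3]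
    refine iSup_le fun a => iSup₂_le fun ℓ hl => prod_le a ℓ hl
  · unfold bumpA
    rw [h1, h2, h3]
    refine iSup_le fun a => iSup₂_le fun ℓ hl => ?_
    rw [mul_right_comm]
    exact prod_le a ℓ hl

theorem strong_fail' : ¬ StrongType (n := 1) (1 / 2) 2 w w := by
  rintro ⟨C, hC⟩
  have hq : ((1 / 2 : ℝ) - ((1:ℕ):ℝ)) = -(1/2) := by norm_num
  refine strong_fail _ hq ⟨(C : ℝ), C.2, ?_⟩
  intro f hf hf0
  have := hC f hf hf0
  rw [ENNReal.ofReal_coe_nnreal]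
  exact this

theorem weak_fail' : ¬ WeakType (n := 1) (1 / 2) 2 w w := by
  rintro ⟨C, hC⟩
  have hq : ((1 / 2 : ℝ) - ((1:ℕ):ℝ)) = -(1/2) := by norm_num
  refine weak_fail _ hq ⟨(C : ℝ), C.2, ?_⟩
  intro f hf hf0 t ht
  have := hC f hf hf0 t ht
  rw [ENNReal.ofReal_coe_nnreal]
  exact this

/-- There are `n`, `0 < α < n`, `1 < p`, Young functions `A, B` with `Ā ∈ B_{p'}`, `B̄ ∈ B_p` and a
pair of weights with both separated bump constants finite for which neither the weak type nor the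
strong type bound for `I_α(·σ)` holds. -/
theorem result : ∃ (n : ℕ) (α p : ℝ) (A B : ℝ → ℝ) (u σ : EuclideanSpace ℝ (Fin n) → ℝ),
    0 < α ∧ α < n ∧ 1 < p ∧ IsYoung A ∧ IsYoung B ∧
    InB (assoc A) (p / (p - 1)) ∧ InB (assoc B) p ∧ IsWeight u ∧ IsWeight σ ∧
    bumpB α p B u σ < ⊤ ∧ bumpA α p A u σ < ⊤ ∧
    ¬ WeakType α p u σ ∧ ¬ StrongType α p u σ := by
  have h2 : ((2:ℝ) / (2 - 1)) = 2 := by norm_num
  refine ⟨1, 1 / 2, 2, Y, Y, w, w, by norm_num, by norm_num, by norm_num, Y_young, Y_young, ?_,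
    assoc_inB, ⟨w_meas, w_nonneg, w_loc⟩, ⟨w_meas, w_nonneg, w_loc⟩, ?_, ?_, weak_fail',
    strong_fail'⟩
  · rw [h2]; exact assoc_inB
  · exact bumps.1.trans_lt (by norm_num)
  · exact bumps.2.trans_lt (by norm_num)

end

end Pool.Agent.Results.MP_7e0f1f_an.FracSepBump
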